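import Pool.Agent.Lib.LD.Def
import Pool.Agent.Lib.H85TF.P2
import Pool.Agent.Lib.H8F.F5
import Pool.Agent.Lib.H47G5.Cv

/-!
# H63B, file B: one cycle in a graph without 2-cuts can be made longer (MP_33911d)
-/

set_option autoImplicit false
set_option linter.unusedSectionVars false

namespace H63B

open Finset H98M LD H85TF H47G5

variable {V : Type*} [Fintype V] [DecidableEq V]

/-- Adding a path, with control of the components. -/
theorem addPathC {E : Finset (Sym2 V)} {d : V} :
    ∀ {x : V} (p : (SimpleGraph.fromEdgeSet (E : Set (Sym2 V))).Walk x d), p.IsPath →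
      ∀ F : Finset (Sym2 V), F ⊆ E → x ≠ d → s(x, d) ∉ F → dg F x = 1 → dg F d = 1 →
      (∀ v, v ≠ x → v ≠ d → dg F v = 0 ∨ dg F v = 2) →
      (∀ r ∈ p.support, r ≠ x → r ≠ d → dg F r = 0) →
      ∃ F' ⊆ E, (∀ v, dg F' v = 0 ∨ dg F' v = 2) ∧ F ⊆ F' ∧ (∀ r ∈ p.support, dg F' r = 2) ∧
        (∀ v, dg F' v ≠ 0 → dg F v ≠ 0 ∨ v ∈ p.support) ∧
        ∀ T : Finset V, (∀ a ∈ T, ∀ b, s(a, b) ∈ F' → b ∈ T) →
          ∀ r ∈ p.support, r ∈ T → ∀ r' ∈ p.support, r' ∈ T := by
  intro x p
  induction p with
  | nil => intro _ F _ h; exact absurd rfl h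
  | @cons x y d h q ih =>
    intro hp F hF hxd hne hx hd hdeg hin
    rw [SimpleGraph.fromEdgeSet_adj] at h
    obtain ⟨hxy, hxy'⟩ := h
    rw [SimpleGraph.Walk.cons_isPath_iff] at hp
    by_cases hyd : y = d
    · subst hyd
      have hq : q = .nil := SimpleGraph.Walk.isPath_iff_eq_nil.1 hp.1
      subst hq
      have key := dg_insert hne
      have kx : dg (insert s(x, y) F) x = 2 := by rw [key x]; simp [hx]
      have ky : dg (insert s(x, y) F) y = 2 := by rw [key y]; simp [hd]
      refine ⟨insert s(x, y) F, insert_subset (by exact_mod_cast hxy) hF, ?_, subset_insert _ _, ?_, ?_, ?_⟩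
      · intro v
        by_cases h1 : v = x
        · subst h1; exact Or.inr kx
        · by_cases h2 : v = y
          · subst h2; exact Or.inr ky
          · rw [key v]
            simpa [h1, h2] using hdeg v h1 h2
      · intro r hr
        simp only [SimpleGraph.Walk.support_cons, SimpleGraph.Walk.support_nil, List.mem_cons,
          List.not_mem_nil, or_false] at hr
        rcases hr with rfl | rfl
        · exact kx
        · exact ky
      · intro v hv
        simp only [SimpleGraph.Walk.support_cons, SimpleGraph.Walk.support_nil, List.mem_cons,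
          List.not_mem_nil, or_false]
        by_cases h1 : v = x
        · exact Or.inr (Or.inl h1)
        · by_cases h2 : v = y
          · exact Or.inr (Or.inr h2)
          · rw [key v] at hv
            left
            simpa [h1, h2] using hv
      · intro T hT r hr hrT r' hr'
        simp only [SimpleGraph.Walk.support_cons, SimpleGraph.Walk.support_nil, List.mem_cons,
          List.not_mem_nil, or_false] at hr hr'
        have h1 : x ∈ T → y ∈ T := fun h => hT x h y (mem_insert_self _ _)
        have h2 : y ∈ T → x ∈ T := fun h => hT y h x (by rw [Sym2.eq_swap]; exact mem_insert_self _ _)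
        rcases hr with rfl | rfl <;> rcases hr' with rfl | rfl
        · exact hrT
        · exact h1 hrT
        · exact h2 hrT
        · exact hrT
    · have hy0 : dg F y = 0 := hin y (by simp) (Ne.symm hxy') hyd
      have hnF : s(x, y) ∉ F := fun h' => by
        have := dg_pos' h'
        omega
      have key := dg_insert hnF
      obtain ⟨F', hF', h1, h2, h3, h4, h5⟩ := ih hp.1 (insert s(x, y) F)
        (insert_subset (by exact_mod_cast hxy) hF) hyd
        (by
          intro h'
          rcases mem_insert.1 h' with h' | h'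
          · rw [Sym2.eq_iff] at h'
            rcases h' with h' | h'
            · exact hxy' h'.1.symm
            · exact hxd h'.2.symm
          · have := dg_pos h'
            omega)
        (by rw [key y]; simp [hy0])
        (by
          rw [key d]
          have h1 : d ≠ x := Ne.symm hxd
          have h2 : d ≠ y := Ne.symm hyd
          simpa [h1, h2] using hd)
        (by
          intro v hv1 hv2
          rw [key v]
          by_cases h1 : v = x
          · subst h1; simp [hx]
          · simpa [h1, hv1] using hdeg v h1 hv2)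
        (by
          intro r hr hr1 hr2
          have h1 : r ≠ x := fun e => hp.2 (e ▸ hr)
          rw [key r]
          have := hin r (by simp [hr]) h1 hr2
          simpa [h1, hr1] using this)
      have hxyF' : s(x, y) ∈ F' := h2 (mem_insert_self _ _)
      have hx2 : dg F' x = 2 := by
        rcases h1 x with h | h
        · exact absurd h (dg_pos hxyF').ne'
        · exact h
      refine ⟨F', hF', h1, (subset_insert _ _).trans h2, ?_, ?_, ?_⟩
      · intro r hr
        rw [SimpleGraph.Walk.support_cons, List.mem_cons] at hr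
        rcases hr with rfl | hr
        · exact hx2
        · exact h3 r hr
      · intro v hv
        rw [SimpleGraph.Walk.support_cons, List.mem_cons]
        by_cases hvx : v = x
        · exact Or.inr (Or.inl hvx)
        · rcases h4 v hv with h6 | h6
          · by_cases hvy : v = y
            · subst hvy
              exact Or.inr (Or.inr (by simp))
            · left
              rw [key v] at h6
              simpa [hvx, hvy] using h6
          · exact Or.inr (Or.inr h6)
      · intro T hT r hr hrT r' hr'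
        rw [SimpleGraph.Walk.support_cons, List.mem_cons] at hr hr'
        have a1 : x ∈ T → y ∈ T := fun h => hT x h y hxyF'
        have a2 : y ∈ T → x ∈ T := fun h => hT y h x (by rw [Sym2.eq_swap]; exact hxyF')
        have hyq : y ∈ q.support := by simp
        have a3 : y ∈ T := by
          rcases hr with rfl | hr
          · exact a1 hrT
          · exact h5 T hT r hr hrT y hyq
        rcases hr' with rfl | hr'
        · exact a2 a3
        · exact h5 T hT y hyq a3 r' hr'

/-- A vertex of degree two with three neighbours. -/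
theorem deg3 {F : Finset (Sym2 V)} {a p q b : V} (h2 : dg F a = 2) (hp : s(a, p) ∈ F)
    (hq : s(a, q) ∈ F) (hb : s(a, b) ∈ F) (hpq : p ≠ q) : b = p ∨ b = q := by
  by_contra hcon
  rw [not_or] at hcon
  have h1 : ({p, q, b} : Finset V).image (fun c => s(a, c)) ⊆ F.filter fun e => a ∈ e := by
    intro e he
    obtain ⟨c, hc, rfl⟩ := mem_image.1 he
    rw [mem_filter]
    refine ⟨?_, by simp⟩
    simp only [mem_insert, mem_singleton] at hc
    rcases hc with rfl | rfl | rfl
    · exact hp
    · exact hq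
    · exact hb
  have h3 := card_le_card h1
  have hinj : Function.Injective fun c => s(a, c) := by
    intro c d hcd
    exact Sym2.congr_right.1 hcd
  rw [card_image_of_injective _ hinj,
    card_eq_three.2 ⟨p, q, b, hpq, Ne.symm hcon.1, Ne.symm hcon.2, rfl⟩] at h3
  unfold dg at h2
  omega

/-- Two neighbours of a vertex of degree two. -/
theorem two_nb {F : Finset (Sym2 V)} {v : V} (h : dg F v = 2) : ∃ a b, a ≠ b ∧ s(v, a) ∈ F ∧ s(v, b) ∈ F := by
  unfold dg at h
  obtain ⟨e, f, hef, h1⟩ := card_eq_two.1 h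
  have he : e ∈ F.filter fun e => v ∈ e := by rw [h1]; simp
  have hf : f ∈ F.filter fun e => v ∈ e := by rw [h1]; simp
  rw [mem_filter] at he hf
  obtain ⟨a, rfl⟩ := Sym2.mem_iff_exists.1 he.2
  obtain ⟨b, rfl⟩ := Sym2.mem_iff_exists.1 hf.2
  exact ⟨a, b, fun h => hef (by rw [h]), he.1, hf.1⟩

/-- THE EXTENSION STEP. -/
theorem ext_cyc {E F : Finset (Sym2 V)} (hE : ∀ e ∈ E, ¬ e.IsDiag) (hF : F ⊆ E) (h1 : OneF F) {K : Finset V}
    (hK : ¬ Disc K E) (hK0 : ∀ k ∈ K, dg F k = 0) {a b : V} (hab : s(a, b) ∈ F)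
    (ha : ∃ k ∈ K, s(a, k) ∈ E) (hb : ∃ k ∈ K, s(b, k) ∈ E) :
    ∃ F' ⊆ E, OneF F' ∧ (∀ v, dg F v = 2 → dg F' v = 2) ∧ ∃ r ∈ K, dg F' r = 2 := by
  have hne : a ≠ b := fun h => hE _ (hF hab) (by simpa using h)
  have hdg := dg_erase hab
  have ha2 : dg F a = 2 := (h1.1 a).resolve_left (dg_pos hab).ne'
  have hb2 : dg F b = 2 := (h1.1 b).resolve_left (dg_pos' hab).ne'
  have haK : a ∉ K := fun h => by have := hK0 a h; omega
  have hbK : b ∉ K := fun h => by have := hK0 b h; omega
  obtain ⟨ka, hka, hka'⟩ := ha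
  obtain ⟨kb, hkb, hkb'⟩ := hb
  have hsub : F.erase s(a, b) ⊆ E.erase s(a, b) := erase_subset_erase _ hF
  have hin : ∀ {u w : V}, u ∈ K → s(u, w) ∈ E → s(u, w) ∈ E.erase s(a, b) := by
    intro u w hu huw
    refine mem_erase.2 ⟨fun h => ?_, huw⟩
    rw [Sym2.eq_iff] at h
    rcases h with h | h
    · exact haK (h.1 ▸ hu)
    · exact hbK (h.1 ▸ hu)
  have hconn : ¬ Disc (insert a (insert b K)) (E.erase s(a, b)) := by
    rintro ⟨C, D, hC, hD, hCD, hun, hno⟩
    have main : ∀ C D : Finset V, Disjoint C D → C ∪ D = insert a (insert b K) → D.Nonempty →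
        (∀ x ∈ C, ∀ y ∈ D, s(x, y) ∉ E.erase s(a, b)) → (C ∩ K).Nonempty → False := by
      intro C D hCD hun hD hno hCK
      have hDK : ¬ (D ∩ K).Nonempty := by
        intro hDK
        refine hK ⟨C ∩ K, D ∩ K, hCK, hDK, hCD.mono inter_subset_left inter_subset_left, ?_, ?_⟩
        · rw [← union_inter_distrib_right, hun]
          exact inter_eq_right.2 fun v hv => mem_insert_of_mem (mem_insert_of_mem hv)
        · intro x hx y hy hxy
          rw [mem_inter] at hx hy
          exact hno x hx.1 y hy.1 (hin hx.2 hxy)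
      have hKC : ∀ k ∈ K, k ∈ C := by
        intro k hk
        have h2 : k ∈ C ∪ D := by rw [hun]; exact mem_insert_of_mem (mem_insert_of_mem hk)
        rcases mem_union.1 h2 with h2 | h2
        · exact h2
        · exact absurd ⟨k, mem_inter.2 ⟨h2, hk⟩⟩ hDK
      obtain ⟨v, hv⟩ := hD
      have h2 : v ∈ insert a (insert b K) := by rw [← hun]; exact mem_union_right _ hv
      simp only [mem_insert] at h2
      rcases h2 with rfl | rfl | h2
      · exact hno ka (hKC ka hka) _ hv (hin hka (by rw [Sym2.eq_swap]; exact hka'))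
      · exact hno kb (hKC kb hkb) _ hv (hin hkb (by rw [Sym2.eq_swap]; exact hkb'))
      · exact disjoint_left.1 hCD (hKC v h2) hv
    have h2 : ka ∈ C ∪ D := by rw [hun]; exact mem_insert_of_mem (mem_insert_of_mem hka)
    rcases mem_union.1 h2 with h2 | h2
    · exact main C D hCD hun hD hno ⟨ka, mem_inter.2 ⟨h2, hka⟩⟩
    · exact main D C hCD.symm (by rw [union_comm]; exact hun) hC (fun x hx y hy hxy => hno y hy x hx (by
        have h9 : s(y, x) = s(x, y) := Sym2.eq_swap
        rw [h9]
        exact hxy)) ⟨ka, mem_inter.2 ⟨h2, hka⟩⟩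
  obtain ⟨p, hp, hpU⟩ := path_of_not_disc hconn (b := a) (d := b) (mem_insert_self _ _)
    (mem_insert_of_mem (mem_insert_self _ _))
  have hv0 : ∀ v, v ≠ a → v ≠ b → dg (F.erase s(a, b)) v = dg F v := by
    intro v h1 h2
    have := hdg v
    rw [if_neg (not_or.2 ⟨h1, h2⟩)] at this
    omega
  have ha1 : dg (F.erase s(a, b)) a = 1 := by
    have := hdg a
    rw [if_pos (Or.inl rfl)] at this
    omega
  have hb1 : dg (F.erase s(a, b)) b = 1 := by
    have := hdg b
    rw [if_pos (Or.inr rfl)] at this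
    omega
  obtain ⟨F', h2, h3, h4, h5, h6, h7⟩ := addPathC p hp (F.erase s(a, b)) hsub hne (notMem_erase _ _) ha1 hb1
    (fun v hva hvb => by rw [hv0 v hva hvb]; exact h1.1 v)
    (by
      intro r hr hra hrb
      rw [hv0 r hra hrb]
      have := hpU r hr
      simp only [mem_insert] at this
      exact hK0 r ((this.resolve_left hra).resolve_left hrb))
  have has : a ∈ p.support := by simp
  have hbs : b ∈ p.support := by simp
  refine ⟨F', h2.trans (erase_subset _ _), ⟨h3, ?_⟩, ?_, ?_⟩
  · intro T hT x hx hx0 y hy0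
    have hTF : ∀ u ∈ T, ∀ w, s(u, w) ∈ F → w ∈ T := by
      intro u hu w huw
      by_cases h8 : s(u, w) = s(a, b)
      · rw [Sym2.eq_iff] at h8
        rcases h8 with ⟨rfl, rfl⟩ | ⟨rfl, rfl⟩
        · exact h7 T hT _ has hu _ hbs
        · exact h7 T hT _ hbs hu _ has
      · exact hT u hu w (h4 (mem_erase.2 ⟨h8, huw⟩))
    have hdF : ∀ v, dg (F.erase s(a, b)) v ≠ 0 → dg F v ≠ 0 := by
      intro v hv
      have := hdg v
      omega
    have haT : a ∈ T := by
      rcases h6 x hx0 with h8 | h8
      · exact h1.2 T hTF x hx (hdF x h8) a (dg_pos hab).ne'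
      · exact h7 T hT x h8 hx a has
    rcases h6 y hy0 with h8 | h8
    · exact h1.2 T hTF a haT (dg_pos hab).ne' y (hdF y h8)
    · exact h7 T hT a has haT y h8
  · intro v hv
    by_cases hva : v = a
    · rw [hva]; exact h5 a has
    · by_cases hvb : v = b
      · rw [hvb]; exact h5 b hbs
      · have h8 : dg (F.erase s(a, b)) v = 2 := by rw [hv0 v hva hvb]; exact hv
        refine (h3 v).resolve_left fun h9 => ?_
        have h10 : dg (F.erase s(a, b)) v ≤ dg F' v := card_le_card (filter_subset_filter _ h4)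
        omega
  · cases p with
    | nil => exact absurd rfl hne
    | @cons _ r _ h q =>
      rw [SimpleGraph.fromEdgeSet_adj] at h
      have h8 : s(a, r) ∈ E.erase s(a, b) := by exact_mod_cast h.1
      have h9 : r ∈ (SimpleGraph.Walk.cons (by rw [SimpleGraph.fromEdgeSet_adj]; exact h) q :
          (SimpleGraph.fromEdgeSet ((E.erase s(a, b) : Finset (Sym2 V)) : Set (Sym2 V))).Walk a b).support := by
        rw [SimpleGraph.Walk.support_cons]
        exact List.mem_cons_of_mem _ (by simp)
      refine ⟨r, ?_, h5 r h9⟩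
      have h10 := hpU r h9
      simp only [mem_insert] at h10
      rcases h10 with h10 | h10 | h10
      · exact absurd h10.symm h.2
      · subst h10
        exact absurd rfl (mem_erase.1 h8).1
      · exact h10

/-- A cycle with at least five vertices has no short cycle. -/
theorem cov5_of_one {E F : Finset (Sym2 V)} (hE : ∀ e ∈ E, ¬ e.IsDiag) (hF : F ⊆ E) (h1 : OneF F) {A : Finset V}
    (hA : ∀ v ∈ A, dg F v = 2) (h5 : 5 ≤ (univ.filter fun v => dg F v = 2).card) : H8F.Cov5 E A := by
  have key : ∀ T : Finset V, T.card ≤ 4 → (∃ x ∈ T, dg F x ≠ 0) →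
      ¬ ∀ a ∈ T, ∀ b, s(a, b) ∈ F → b ∈ T := by
    rintro T hT ⟨x, hx, hx0⟩ hcl
    have h2 : (univ.filter fun v => dg F v = 2) ⊆ T := by
      intro v hv
      rw [mem_filter] at hv
      exact h1.2 T hcl x hx hx0 v (by omega)
    have := card_le_card h2
    omega
  have hd2 : ∀ {a b : V}, s(a, b) ∈ F → dg F a = 2 := fun h => (h1.1 _).resolve_left (dg_pos h).ne'
  have sw : ∀ {a b : V}, s(a, b) ∈ F → s(b, a) ∈ F := fun h => by rw [Sym2.eq_swap]; exact h
  have hne : ∀ {a b : V}, s(a, b) ∈ F → a ≠ b := fun h e => hE _ (hF h) (by simpa using e)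
  refine ⟨F, hF, h1.1, ?_, ?_, hA⟩
  · intro x y z hxy hyz hxz
    refine key {x, y, z} (card_le_three.trans (by omega)) ⟨x, by simp, (dg_pos hxy).ne'⟩ ?_
    intro a ha b hab
    simp only [mem_insert, mem_singleton] at ha ⊢
    rcases ha with rfl | rfl | rfl
    · rcases deg3 (hd2 hxy) hxy hxz hab (hne hyz) with h | h
      · exact Or.inr (Or.inl h)
      · exact Or.inr (Or.inr h)
    · rcases deg3 (hd2 hyz) (sw hxy) hyz hab (hne hxz) with h | h
      · exact Or.inl h
      · exact Or.inr (Or.inr h)
    · rcases deg3 (hd2 (sw hxz)) (sw hxz) (sw hyz) hab (hne hxy) with h | h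
      · exact Or.inl h
      · exact Or.inr (Or.inl h)
  · intro x y z w hxz hyw hxy hyz hzw hwx
    refine key {x, y, z, w} card_le_four ⟨x, by simp, (dg_pos hxy).ne'⟩ ?_
    intro a ha b hab
    simp only [mem_insert, mem_singleton] at ha ⊢
    rcases ha with rfl | rfl | rfl | rfl
    · rcases deg3 (hd2 hxy) hxy (sw hwx) hab hyw with h | h
      · exact Or.inr (Or.inl h)
      · exact Or.inr (Or.inr (Or.inr h))
    · rcases deg3 (hd2 hyz) (sw hxy) hyz hab hxz with h | h
      · exact Or.inl h
      · exact Or.inr (Or.inr (Or.inl h))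
    · rcases deg3 (hd2 hzw) (sw hyz) hzw hab hyw with h | h
      · exact Or.inr (Or.inl h)
      · exact Or.inr (Or.inr (Or.inr h))
    · rcases deg3 (hd2 hwx) hwx (sw hzw) hab hxz with h | h
      · exact Or.inl h
      · exact Or.inr (Or.inr (Or.inl h))

/-- A connected set stays connected when a neighbour is added. -/
theorem conn_insert {E : Finset (Sym2 V)} {K : Finset V} {k u : V} (hK : ¬ Disc K E) (hk : k ∈ K)
    (hku : s(k, u) ∈ E) : ¬ Disc (insert u K) E := by
  by_cases huK : u ∈ K
  · rw [insert_eq_self.2 huK]; exact hK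
  rintro ⟨C, D, hC, hD, hCD, hun, hno⟩
  have main : ∀ C D : Finset V, C.Nonempty → D.Nonempty → Disjoint C D → C ∪ D = insert u K →
      (∀ x ∈ C, ∀ y ∈ D, s(x, y) ∉ E) → u ∈ C → False := by
    intro C D hC hD hCD hun hno hu
    have huD : u ∉ D := disjoint_left.1 hCD hu
    have hDK : D ⊆ K := by
      intro v hv
      have h1 : v ∈ insert u K := by rw [← hun]; exact mem_union_right _ hv
      exact (mem_insert.1 h1).resolve_left fun h => huD (h ▸ hv)
    by_cases hCe : (C.erase u).Nonempty
    · refine hK ⟨C.erase u, D, hCe, hD, hCD.mono_left (erase_subset _ _), ?_, fun x hx y hy =>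
        hno x (mem_of_mem_erase hx) y hy⟩
      ext v
      rw [mem_union, mem_erase]
      constructor
      · rintro (⟨h1, h2⟩ | h1)
        · have h3 : v ∈ insert u K := by rw [← hun]; exact mem_union_left _ h2
          exact (mem_insert.1 h3).resolve_left h1
        · exact hDK h1
      · intro hv
        have h3 : v ∈ C ∪ D := by rw [hun]; exact mem_insert_of_mem hv
        rcases mem_union.1 h3 with h4 | h4
        · exact Or.inl ⟨fun h => huK (h ▸ hv), h4⟩
        · exact Or.inr h4
    · have hkD : k ∈ D := by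
        have h3 : k ∈ C ∪ D := by rw [hun]; exact mem_insert_of_mem hk
        rcases mem_union.1 h3 with h4 | h4
        · refine absurd ⟨k, mem_erase.2 ⟨fun h => huK (h ▸ hk), h4⟩⟩ hCe
        · exact h4
      exact hno u hu k hkD (by rw [Sym2.eq_swap]; exact hku)
  have hu : u ∈ C ∪ D := by rw [hun]; exact mem_insert_self _ _
  rcases mem_union.1 hu with h | h
  · exact main C D hC hD hCD hun hno h
  · exact main D C hD hC hCD.symm (by rw [union_comm]; exact hun) (fun x hx y hy hxy => hno y hy x hx (by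
      have h9 : s(y, x) = s(x, y) := Sym2.eq_swap
      rw [h9]
      exact hxy)) h

/-- (B) In a graph without 2-cuts with at least five vertices, the vertices on one cycle are covered by a cycle with at
least five vertices. -/
theorem oneCyc_cov5 {E : Finset (Sym2 V)} {Y A : Finset V} (hT : TCY E Y)
    (hno : ∀ x y P Q, ¬ Sep E Y x y P Q) (h5 : 5 ≤ Y.card) (h : OneCyc E A) : H8F.Cov5 E A := by
  classical
  have hE := hT.loop
  obtain ⟨F0, hF0, hO0, hA0⟩ := h
  by_cases hAe : A = ∅
  · subst hAe
    exact ⟨∅, empty_subset _, fun v => Or.inl (by simp [dg]), fun _ _ _ h => absurd h (notMem_empty _),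
      fun _ _ _ _ _ _ h => absurd h (notMem_empty _), fun v hv => absurd hv (notMem_empty v)⟩
  obtain ⟨v0, hv0⟩ := nonempty_iff_ne_empty.2 hAe
  obtain ⟨F, hFm, hmax⟩ := (E.powerset.filter fun F => OneF F ∧ ∀ v ∈ A, dg F v = 2).exists_max_image
    (fun F => (univ.filter fun v => dg F v = 2).card) ⟨F0, mem_filter.2 ⟨mem_powerset.2 hF0, hO0, hA0⟩⟩
  rw [mem_filter, mem_powerset] at hFm
  obtain ⟨hF, hO, hA⟩ := hFm
  obtain ⟨C, hC⟩ : ∃ C : Finset V, C = univ.filter fun v => dg F v = 2 := ⟨_, rfl⟩
  have memC : ∀ {v}, v ∈ C ↔ dg F v = 2 := by intro v; rw [hC, mem_filter]; simp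
  have hd2 : ∀ {a b : V}, s(a, b) ∈ F → a ∈ C := fun h => memC.2 ((hO.1 _).resolve_left (dg_pos h).ne')
  have hd2' : ∀ {a b : V}, s(a, b) ∈ F → b ∈ C := fun h => memC.2 ((hO.1 _).resolve_left (dg_pos' h).ne')
  have hne : ∀ {a b : V}, s(a, b) ∈ E → a ≠ b := fun h e => hE _ h (by simpa using e)
  by_cases hc5 : 5 ≤ C.card
  · exact cov5_of_one hE hF hO hA (by rw [← hC]; exact hc5)
  exfalso
  have hCY : C ⊆ Y := by
    intro v hv
    obtain ⟨a, b, -, ha, -⟩ := two_nb (memC.1 hv)
    exact hT.sub _ (hF ha) v (by simp)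
  have hC3 : 3 ≤ C.card := by
    obtain ⟨a, b, hab, ha, hb⟩ := two_nb (hA v0 hv0)
    have h1 : ({v0, a, b} : Finset V) ⊆ C := by
      intro v hv
      simp only [mem_insert, mem_singleton] at hv
      rcases hv with rfl | rfl | rfl
      · exact hd2 ha
      · exact hd2' ha
      · exact hd2' hb
    have h2 := card_le_card h1
    rw [card_eq_three.2 ⟨v0, a, b, hne (hF ha), hne (hF hb), hab, rfl⟩] at h2
    exact h2
  -- a component `K` of `Y - C`
  obtain ⟨w, hw⟩ : (Y \ C).Nonempty := by
    rw [← card_pos, card_sdiff_of_subset hCY]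
    omega
  obtain ⟨K, hKm, hKmax⟩ := ((Y \ C).powerset.filter fun K => w ∈ K ∧ ¬ Disc K E).exists_max_image
    (fun K => K.card) ⟨{w}, mem_filter.2 ⟨mem_powerset.2 (singleton_subset_iff.2 hw), mem_singleton_self w, by
      rintro ⟨P, Q, hP, hQ, hPQ, hun, -⟩
      have h1 := card_union_of_disjoint hPQ
      rw [hun, card_singleton] at h1
      have := card_pos.2 hP
      have := card_pos.2 hQ
      omega⟩⟩
  rw [mem_filter, mem_powerset] at hKm
  obtain ⟨hKY, hwK, hKc⟩ := hKm
  have hKnb : ∀ k ∈ K, ∀ u ∈ Y \ C, s(k, u) ∈ E → u ∈ K := by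
    intro k hk u hu hku
    by_contra huK
    have h1 := hKmax (insert u K) (mem_filter.2 ⟨mem_powerset.2 (insert_subset hu hKY),
      mem_insert_of_mem hwK, conn_insert hKc hk hku⟩)
    rw [card_insert_of_notMem huK] at h1
    omega
  obtain ⟨N, hN⟩ : ∃ N : Finset V, N = C.filter fun c => ∃ k ∈ K, s(c, k) ∈ E := ⟨_, rfl⟩
  have memN : ∀ {c}, c ∈ N ↔ c ∈ C ∧ ∃ k ∈ K, s(c, k) ∈ E := by intro c; rw [hN, mem_filter]
  have hNC : N ⊆ C := fun c hc => (memN.1 hc).1
  have hN3 : 3 ≤ N.card := by
    by_contra hlt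
    obtain ⟨N', h1, h2, h3⟩ := exists_subsuperset_card_eq hNC (by omega : N.card ≤ 2) (by omega : 2 ≤ C.card)
    obtain ⟨x, y, hxy, hN'⟩ := card_eq_two.1 h3
    have hxC : x ∈ C := h2 (by rw [hN']; simp)
    have hyC : y ∈ C := h2 (by rw [hN']; simp)
    have hKC : ∀ {v}, v ∈ K → v ∉ C := fun hv => (mem_sdiff.1 (hKY hv)).2
    obtain ⟨z, hz⟩ : (C \ {x, y}).Nonempty := by
      rw [← card_pos]
      have := le_card_sdiff ({x, y} : Finset V) C
      have := card_le_two (a := x) (b := y)
      omega
    have hz' := mem_sdiff.1 hz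
    simp only [mem_insert, mem_singleton, not_or] at hz'
    refine hno x y K (Y \ insert x (insert y K)) ⟨hxy, fun h => hKC h hxC, ?_, fun h => hKC h hyC, ?_, ⟨w, hwK⟩,
      ⟨z, ?_⟩, ?_, ?_, ?_⟩
    · simp
    · simp
    · simp only [mem_sdiff, mem_insert, not_or]
      exact ⟨hCY hz'.1, hz'.2.1, hz'.2.2, fun h => hKC h hz'.1⟩
    · rw [disjoint_left]
      intro a ha hb
      simp only [mem_sdiff, mem_insert, not_or] at hb
      exact hb.2.2.2 ha
    · ext v
      simp only [mem_insert, mem_union, mem_sdiff, not_or]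
      constructor
      · rintro (rfl | rfl | h | h)
        · exact hCY hxC
        · exact hCY hyC
        · exact (mem_sdiff.1 (hKY h)).1
        · exact h.1
      · intro hv
        by_cases e1 : v = x
        · exact Or.inl e1
        · by_cases e2 : v = y
          · exact Or.inr (Or.inl e2)
          · by_cases e3 : v ∈ K
            · exact Or.inr (Or.inr (Or.inl e3))
            · exact Or.inr (Or.inr (Or.inr ⟨hv, e1, e2, e3⟩))
    · intro a ha b hb hab
      simp only [mem_sdiff, mem_insert, not_or] at hb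
      by_cases hbC : b ∈ C
      · have h4 : b ∈ N' := h1 (memN.2 ⟨hbC, a, ha, by rw [Sym2.eq_swap]; exact hab⟩)
        rw [hN'] at h4
        simp only [mem_insert, mem_singleton] at h4
        rcases h4 with h4 | h4
        · exact hb.2.1 h4
        · exact hb.2.2.1 h4
      · exact hb.2.2.2 (hKnb a ha b (mem_sdiff.2 ⟨hb.1, hbC⟩) hab)
  -- an edge of the cycle with both ends in `N`
  have hedge : ∃ a b, s(a, b) ∈ F ∧ a ∈ N ∧ b ∈ N := by
    have h1 : (C \ N).card ≤ 1 := by
      rw [card_sdiff_of_subset hNC]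
      omega
    have hout : ∀ {u v : V}, u ∈ C → v ∈ C → u ≠ v → u ∈ N ∨ v ∈ N := by
      intro u v hu hv huv
      by_contra hcon
      rw [not_or] at hcon
      exact huv (card_le_one.1 h1 u (mem_sdiff.2 ⟨hu, hcon.1⟩) v (mem_sdiff.2 ⟨hv, hcon.2⟩))
    obtain ⟨a, ha⟩ : N.Nonempty := card_pos.1 (by omega)
    obtain ⟨p, q, hpq, hp, hq⟩ := two_nb (memC.1 (hNC ha))
    rcases hout (hd2' hp) (hd2' hq) hpq with h | h
    · exact ⟨a, p, hp, ha, h⟩
    · exact ⟨a, q, hq, ha, h⟩
  obtain ⟨a, b, hab, ha, hb⟩ := hedge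
  obtain ⟨F', g1, g2, g3, r, hr, g4⟩ := ext_cyc hE hF hO hKc
    (fun k hk => (hO.1 k).resolve_right fun h => (mem_sdiff.1 (hKY hk)).2 (memC.2 h)) hab (memN.1 ha).2 (memN.1 hb).2
  have h9 := hmax F' (mem_filter.2 ⟨mem_powerset.2 g1, g2, fun v hv => g3 v (hA v hv)⟩)
  rw [← hC] at h9
  have h10 : insert r C ⊆ univ.filter fun v => dg F' v = 2 := by
    intro v hv
    rw [mem_filter]
    refine ⟨mem_univ _, ?_⟩
    rcases mem_insert.1 hv with rfl | hv
    · exact g4
    · exact g3 v (memC.1 hv)
  have h11 := card_le_card h10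
  rw [card_insert_of_notMem (mem_sdiff.1 (hKY hr)).2] at h11
  omega

end H63B
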